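import Mathlib

/-!
# Edges of a neighborly surface do not cross; the vertices span the space
-/

namespace Pool.Agent.Lib.MP_4f1247_co.Sym

open Finset

abbrev E3' := EuclideanSpace ℝ (Fin 3)

/-- `T` is the set of faces of a neighborly polyhedron with the vertices `p i`: every two vertices
are in exactly two faces, the faces are triangles which meet in common faces only, and adjacent faces
are not coplanar. -/
structure NeighPoly {n : ℕ} (p : Fin n → E3') (T : Finset (Finset (Fin n))) : Prop where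
  card : ∀ t ∈ T, t.card = 3
  two : ∀ i j : Fin n, i ≠ j → (T.filter (fun t => i ∈ t ∧ j ∈ t)).card = 2
  ind : ∀ t ∈ T, AffineIndependent ℝ (fun x : {i // i ∈ t} => p x.1)
  emb : ∀ t₁ ∈ T, ∀ t₂ ∈ T,
    convexHull ℝ (p '' (t₁ : Set (Fin n))) ∩ convexHull ℝ (p '' (t₂ : Set (Fin n)))
      = convexHull ℝ (p '' ((t₁ ∩ t₂ : Finset (Fin n)) : Set (Fin n)))
  cop : ∀ t₁ ∈ T, ∀ t₂ ∈ T, (t₁ ∩ t₂).card = 2 →
    AffineIndependent ℝ (fun x : {i // i ∈ t₁ ∪ t₂} => p x.1)

variable {n : ℕ} {p : Fin n → E3'} {T : Finset (Finset (Fin n))}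

theorem NeighPoly.faces (h : NeighPoly p T) {i j : Fin n} (hij : i ≠ j) :
    ∃ s ∈ T, ∃ t ∈ T, s ≠ t ∧ i ∈ s ∧ j ∈ s ∧ i ∈ t ∧ j ∈ t ∧
      ∀ r ∈ T, i ∈ r → j ∈ r → r = s ∨ r = t := by
  obtain ⟨s, t, hst, he⟩ := Finset.card_eq_two.1 (h.two i j hij)
  have hs : s ∈ T.filter (fun t => i ∈ t ∧ j ∈ t) := by rw [he]; simp
  have ht : t ∈ T.filter (fun t => i ∈ t ∧ j ∈ t) := by rw [he]; simp
  rw [Finset.mem_filter] at hs ht
  refine ⟨s, hs.1, t, ht.1, hst, hs.2.1, hs.2.2, ht.2.1, ht.2.2, fun r hr hi hj => ?_⟩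
  have : r ∈ T.filter (fun t => i ∈ t ∧ j ∈ t) := Finset.mem_filter.2 ⟨hr, hi, hj⟩
  rw [he] at this
  simpa using this

theorem injOn_face (h : NeighPoly p T) {t : Finset (Fin n)} (ht : t ∈ T) {i j : Fin n} (hi : i ∈ t)
    (hj : j ∈ t) (hp : p i = p j) : i = j := by
  have := (h.ind t ht).injective (a₁ := ⟨i, hi⟩) (a₂ := ⟨j, hj⟩) hp
  simpa using this

theorem inj (h : NeighPoly p T) : Function.Injective p := by
  intro i j hp
  by_contra hij
  obtain ⟨s, hs, -, -, -, hi, hj, -⟩ := h.faces hij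
  exact hij (injOn_face h hs hi hj hp)

/-- faces of a triangle -/
theorem hull_inter_face (h : NeighPoly p T) {t : Finset (Fin n)} (ht : t ∈ T) {A B : Set (Fin n)}
    (hA : A ⊆ t) (hB : B ⊆ t) :
    convexHull ℝ (p '' A) ∩ convexHull ℝ (p '' B) = convexHull ℝ (p '' (A ∩ B)) := by
  classical
  have hi := h.ind t ht
  -- the finite set of the vertices
  have h1 : AffineIndependent ℝ ((↑) : (Set.range fun x : {i // i ∈ t} => p x.1) → E3') :=
    hi.range
  have h2 : (Set.range fun x : {i // i ∈ t} => p x.1) = ((t.image p : Finset E3') : Set E3') := by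
    ext y; simp
  rw [h2] at h1
  have hAf : A.Finite := t.finite_toSet.subset hA
  have hBf : B.Finite := t.finite_toSet.subset hB
  have h3 := h1.convexHull_inter (t₁ := hAf.toFinset.image p) (t₂ := hBf.toFinset.image p)
    (Finset.image_subset_image (fun x hx => hA (hAf.mem_toFinset.1 hx)))
    (Finset.image_subset_image (fun x hx => hB (hBf.mem_toFinset.1 hx)))
  have h4 : ((hAf.toFinset.image p ∩ hBf.toFinset.image p : Finset E3') : Set E3')
      = p '' (A ∩ B) := by
    rw [Finset.coe_inter, Finset.coe_image, Finset.coe_image, Set.Finite.coe_toFinset,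
      Set.Finite.coe_toFinset, ← Set.image_inter_on]
    intro x hx y hy hxy
    exact injOn_face h ht (hB hx) (hA hy) hxy
  have h5 : p '' A ∩ p '' B = p '' (A ∩ B) := by
    rw [← h4, Finset.coe_inter, Finset.coe_image, Finset.coe_image, Set.Finite.coe_toFinset,
      Set.Finite.coe_toFinset]
  rw [Finset.coe_image, Finset.coe_image, Set.Finite.coe_toFinset,
    Set.Finite.coe_toFinset] at h3
  rw [← h5]
  exact h3.symm

theorem seg_eq (a b : Fin n) : segment ℝ (p a) (p b) = convexHull ℝ (p '' {a, b}) := by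
  rw [Set.image_pair, convexHull_pair]

/-- Two edges without a common vertex do not meet. -/
theorem cross (h : NeighPoly p T) {a b c d : Fin n} (hab : a ≠ b) (hcd : c ≠ d) (hac : a ≠ c)
    (had : a ≠ d) (hbc : b ≠ c) (hbd : b ≠ d) {x : E3'} (h1 : x ∈ segment ℝ (p a) (p b))
    (h2 : x ∈ segment ℝ (p c) (p d)) : False := by
  obtain ⟨s, hs, -, -, -, has, hbs, -⟩ := h.faces hab
  obtain ⟨t, ht, -, -, -, hct, hdt, -⟩ := h.faces hcd
  rw [seg_eq] at h1 h2
  have hA : ({a, b} : Set (Fin n)) ⊆ s := by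
    intro y hy; rcases hy with rfl | rfl <;> assumption
  have hC : ({c, d} : Set (Fin n)) ⊆ t := by
    intro y hy; rcases hy with rfl | rfl <;> assumption
  have h3 : x ∈ convexHull ℝ (p '' ((s ∩ t : Finset (Fin n)) : Set (Fin n))) := by
    rw [← h.emb s hs t ht]
    exact ⟨convexHull_mono (Set.image_mono hA) h1, convexHull_mono (Set.image_mono hC) h2⟩
  have h4 : x ∈ convexHull ℝ (p '' ({a, b} ∩ ((s ∩ t : Finset (Fin n)) : Set (Fin n)))) := by
    rw [← hull_inter_face h hs hA (by simp)]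
    exact ⟨h1, h3⟩
  have h5 : x ∈ convexHull ℝ (p '' ({c, d} ∩ ((s ∩ t : Finset (Fin n)) : Set (Fin n)))) := by
    rw [← hull_inter_face h ht hC (by simp)]
    exact ⟨h2, h3⟩
  -- both sets lie in s, and are disjoint
  have h6 : x ∈ convexHull ℝ (p '' (({a, b} ∩ ((s ∩ t : Finset (Fin n)) : Set (Fin n))) ∩
      ({c, d} ∩ ((s ∩ t : Finset (Fin n)) : Set (Fin n))))) := by
    rw [← hull_inter_face h hs (fun y hy => hA hy.1) (fun y hy => by
      have := hy.2; simp at this; exact this.1)]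
    exact ⟨h4, h5⟩
  have h7 : (({a, b} ∩ ((s ∩ t : Finset (Fin n)) : Set (Fin n))) ∩
      ({c, d} ∩ ((s ∩ t : Finset (Fin n)) : Set (Fin n)))) = ∅ := by
    ext y
    simp only [Set.mem_inter_iff, Set.mem_insert_iff, Set.mem_singleton_iff, Set.mem_empty_iff_false,
      iff_false]
    rintro ⟨⟨hy1, -⟩, hy2, -⟩
    rcases hy1 with rfl | rfl <;> rcases hy2 with h8 | h8 <;> first
      | exact hac h8 | exact had h8 | exact hbc h8 | exact hbd h8
  rw [h7, Set.image_empty, convexHull_empty] at h6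
  exact h6

/-- A face is determined by two of its vertices and the third one. -/
theorem face_eq (h : NeighPoly p T) {t : Finset (Fin n)} (ht : t ∈ T) {i j k : Fin n} (hi : i ∈ t)
    (hj : j ∈ t) (hk : k ∈ t) (hij : i ≠ j) (hik : i ≠ k) (hjk : j ≠ k) : t = {i, j, k} := by
  have h1 : ({i, j, k} : Finset (Fin n)) ⊆ t := by
    intro y hy
    simp only [Finset.mem_insert, Finset.mem_singleton] at hy
    rcases hy with rfl | rfl | rfl <;> assumption
  have h2 : ({i, j, k} : Finset (Fin n)).card = 3 := Finset.card_eq_three.2 ⟨i, j, k, hij, hik, hjk, rfl⟩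
  exact (Finset.eq_of_subset_of_card_le h1 (by rw [h2, h.card t ht])).symm

/-- the third vertex of a face -/
theorem third (h : NeighPoly p T) {t : Finset (Fin n)} (ht : t ∈ T) {i j : Fin n} (hi : i ∈ t)
    (hj : j ∈ t) (hij : i ≠ j) : ∃ k, k ≠ i ∧ k ≠ j ∧ t = {i, j, k} := by
  have h1 : (t \ {i, j}).card = 1 := by
    rw [Finset.card_sdiff_of_subset (by
      intro y hy
      simp only [Finset.mem_insert, Finset.mem_singleton] at hy
      rcases hy with rfl | rfl <;> assumption), h.card t ht, Finset.card_pair hij]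
  obtain ⟨k, hk⟩ := Finset.card_eq_one.1 h1
  have h2 : k ∈ t \ {i, j} := by rw [hk]; simp
  simp only [Finset.mem_sdiff, Finset.mem_insert, Finset.mem_singleton, not_or] at h2
  exact ⟨k, h2.2.1, h2.2.2, face_eq h ht hi hj h2.1 hij (Ne.symm h2.2.1) (Ne.symm h2.2.2)⟩

/-- Two vertices are in two faces, whose other vertices are not coplanar with them. -/
theorem quad (h : NeighPoly p T) {i j : Fin n} (hij : i ≠ j) : ∃ k l : Fin n, k ≠ i ∧ k ≠ j ∧ l ≠ i ∧
    l ≠ j ∧ k ≠ l ∧ ({i, j, k} : Finset (Fin n)) ∈ T ∧ ({i, j, l} : Finset (Fin n)) ∈ T ∧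
    (∀ m, ({i, j, m} : Finset (Fin n)) ∈ T → m = k ∨ m = l ∨ m = i ∨ m = j) ∧
    AffineIndependent ℝ ![p i, p j, p k, p l] := by
  obtain ⟨s, hs, t, ht, hst, his, hjs, hit, hjt, hall⟩ := h.faces hij
  obtain ⟨k, hki, hkj, hsk⟩ := third h hs his hjs hij
  obtain ⟨l, hli, hlj, htl⟩ := third h ht hit hjt hij
  have hkl : k ≠ l := by rintro rfl; exact hst (hsk.trans htl.symm)
  refine ⟨k, l, hki, hkj, hli, hlj, hkl, hsk ▸ hs, htl ▸ ht, ?_, ?_⟩
  · intro m hm
    rcases hall _ hm (by simp) (by simp) with h1 | h1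
    · have : m ∈ s := by rw [← h1]; simp
      rw [hsk] at this; simp at this; tauto
    · have : m ∈ t := by rw [← h1]; simp
      rw [htl] at this; simp at this; tauto
  · have h1 : (s ∩ t).card = 2 := by
      have : s ∩ t = {i, j} := by
        ext y
        rw [hsk, htl]
        simp only [Finset.mem_inter, Finset.mem_insert, Finset.mem_singleton]
        constructor
        · rintro ⟨h2, h3⟩
          rcases h2 with h2 | h2 | h2
          · exact Or.inl h2
          · exact Or.inr h2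
          · rcases h3 with h3 | h3 | h3
            · exact Or.inl h3
            · exact Or.inr h3
            · exact absurd (h2.symm.trans h3) hkl
        · rintro (h2 | h2) <;> simp [h2]
      rw [this, Finset.card_pair hij]
    have h2 := h.cop s hs t ht h1
    have hm : ∀ r : Fin 4, (![i, j, k, l] r) ∈ s ∪ t := by
      intro r
      rw [hsk, htl]
      fin_cases r <;> simp
    let f : Fin 4 ↪ {i // i ∈ s ∪ t} := ⟨fun r => ⟨![i, j, k, l] r, hm r⟩, by
      intro r r' hr
      have hr' : ![i, j, k, l] r = ![i, j, k, l] r' := by simpa using hr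
      fin_cases r <;> fin_cases r' <;> simp_all⟩
    have h3 := h2.comp_embedding f
    convert h3 using 1
    funext r
    fin_cases r <;> rfl

end Pool.Agent.Lib.MP_4f1247_co.Sym
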