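import Pool.Agent.Lib.MP_4f1247_co.Sym.Group

/-!
# Symmetries of a neighborly polyhedron: fixed vertices, affine maps
-/

namespace Pool.Agent.Lib.MP_4f1247_co.Sym

open Finset

variable {n : ℕ} {p : Fin n → E3'} {T : Finset (Finset (Fin n))}

/-- A symmetry which respects the faces fixes at most one vertex. -/
theorem fix_one (hN : NeighPoly p T) (hn : 6 < n) {c : E3'} {g : E3' →ₗ[ℝ] E3'}
    {σ : Equiv.Perm (Fin n)} (h : Act p c g σ) (hσ : σ ≠ 1) (hT : ∀ t ∈ T, t.image σ ∈ T)
    {a b : Fin n} (ha : σ a = a) (hb : σ b = b) : a = b := by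
  by_contra hab
  obtain ⟨k, l, hka, hkb, hla, hlb, hkl, hk, hl, hu, hai⟩ := quad hN hab
  have him : ∀ m, ({a, b, m} : Finset (Fin n)) ∈ T → ({a, b, σ m} : Finset (Fin n)) ∈ T := by
    intro m hm
    have := hT _ hm
    simpa [Finset.image_insert, ha, hb] using this
  have hσk : σ k = k ∨ σ k = l := by
    rcases hu _ (him k hk) with h1 | h1 | h1 | h1
    · exact Or.inl h1
    · exact Or.inr h1
    · exact absurd (σ.injective (h1.trans ha.symm)) hka
    · exact absurd (σ.injective (h1.trans hb.symm)) hkb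
  have hσl : σ l = k ∨ σ l = l := by
    rcases hu _ (him l hl) with h1 | h1 | h1 | h1
    · exact Or.inl h1
    · exact Or.inr h1
    · exact absurd (σ.injective (h1.trans ha.symm)) hla
    · exact absurd (σ.injective (h1.trans hb.symm)) hlb
  -- a linear map which fixes the four points is the identity
  have h4 : ∀ (G : E3' →ₗ[ℝ] E3') (τ : Equiv.Perm (Fin n)), Act p c G τ → τ a = a → τ b = b →
      τ k = k → τ l = l → τ = 1 := by
    intro G τ hG h1 h2 h3 h4
    set q : Fin 4 → E3' := ![p a, p b, p k, p l] with hq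
    have hspan : vectorSpan ℝ (Set.range q) = ⊤ := by
      apply hai.vectorSpan_eq_top_of_card_eq_finrank_add_one
      simp
    have hf : ∀ r, ∃ i, q r = p i ∧ τ i = i := by
      intro r
      fin_cases r
      · exact ⟨a, rfl, h1⟩
      · exact ⟨b, rfl, h2⟩
      · exact ⟨k, rfl, h3⟩
      · exact ⟨l, rfl, h4⟩
    have : G = 1 := by
      refine LinearMap.ext_on (s := Set.range q -ᵥ Set.range q) hspan ?_
      rintro x hx
      obtain ⟨x1, hx1, x2, hx2, rfl⟩ := Set.mem_vsub.1 hx
      obtain ⟨r, rfl⟩ := hx1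
      obtain ⟨s, rfl⟩ := hx2
      obtain ⟨r', hr', hr''⟩ := hf r
      obtain ⟨s', hs', hs''⟩ := hf s
      have h5 : q r -ᵥ q s = (p r' - c) - (p s' - c) := by rw [hr', hs', vsub_eq_sub]; abel
      rw [h5, map_sub, hG.eq, hG.eq, hr'', hs'']; rfl
    rw [this] at hG
    exact hG.perm_eq hN (Act.one c)
  have hkl' : σ k = l ∧ σ l = k := by
    rcases hσk with h1 | h1
    · have h2 : σ l = l := by
        rcases hσl with h2 | h2
        · exact absurd (σ.injective (h1.trans h2.symm)) hkl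
        · exact h2
      exact absurd (h4 g σ h ha hb h1 h2) hσ
    · refine ⟨h1, ?_⟩
      rcases hσl with h2 | h2
      · exact h2
      · exact absurd (σ.injective (h1.trans h2.symm)) hkl
  have hσ2 : σ ^ 2 = 1 := by
    refine h4 (g ^ 2) (σ ^ 2) (h.pow 2) ?_ ?_ ?_ ?_
    · simp [pow_two, ha]
    · simp [pow_two, hb]
    · simp [pow_two, hkl'.1, hkl'.2]
    · simp [pow_two, hkl'.1, hkl'.2]
  have hJ2 : g ^ 2 = 1 := by
    have := h.pow 2
    rw [hσ2] at this
    exact this.eq_one hN (by omega)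
  -- the trace is -1
  have htr : (mt g).trace = -1 := by
    rcases classify hN hn h with h1 | ⟨-, -, h1⟩ | ⟨h1, -, -⟩ | ⟨-, -, h1⟩
    · exact absurd h1 hσ
    · exact h1
    · exfalso
      apply hσ
      have : σ ^ 3 = σ ^ 2 * σ := pow_succ σ 2
      rw [h1, hσ2, one_mul] at this
      exact this.symm
    · exact h1
  -- the projection to the fixed vectors
  set P : E3' →ₗ[ℝ] E3' := (1 / 2 : ℝ) • (1 + g) with hP
  have hPi : IsIdempotentElem P := by
    change P * P = P
    rw [hP]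
    have : (1 + g) * (1 + g) = (2 : ℝ) • (1 + g) := by
      have h3 : g * g = 1 := by rw [← pow_two]; exact hJ2
      rw [mul_add, add_mul, add_mul, h3]
      simp only [one_mul, mul_one]
      module
    rw [smul_mul_smul_comm, this, smul_smul]
    norm_num
  have hPt : LinearMap.trace ℝ E3' P = 1 := by
    rw [hP, map_smul, map_add, ← mt_trace g, htr, LinearMap.trace_one]
    simp
    norm_num
  have hrk : Module.finrank ℝ (LinearMap.range P) = 1 := by
    have := ((LinearMap.isProj_range_iff_isIdempotentElem P).2 hPi).trace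
    rw [hPt] at this
    exact_mod_cast this.symm
  obtain ⟨w, -, hw⟩ := finrank_eq_one_iff'.1 hrk
  have hfixv : ∀ x, g x = x → ∃ s : ℝ, s • (w : E3') = x := by
    intro x hx
    obtain ⟨s, hs⟩ := hw ⟨P x, LinearMap.mem_range_self _ _⟩
    refine ⟨s, ?_⟩
    have h3 : s • (w : E3') = P x := congrArg Subtype.val hs
    rw [h3, hP]
    simp only [LinearMap.smul_apply, LinearMap.add_apply, Module.End.one_apply, hx]
    module
  have g1 : g (p b - p a) = p b - p a := by
    have : p b - p a = (p b - c) - (p a - c) := by abel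
    rw [this, map_sub, h.eq, h.eq, ha, hb]
  have g2 : g (p k + p l - (2 : ℝ) • p a) = p k + p l - (2 : ℝ) • p a := by
    have : p k + p l - (2 : ℝ) • p a = (p k - c) + (p l - c) - (2 : ℝ) • (p a - c) := by module
    rw [this, map_sub, map_add, map_smul, h.eq, h.eq, h.eq, ha, hkl'.1, hkl'.2]
    abel
  obtain ⟨s, hs⟩ := hfixv _ g1
  obtain ⟨t, ht⟩ := hfixv _ g2
  have hz : t • (p b - p a) - s • (p k + p l - (2 : ℝ) • p a) = 0 := by
    rw [← hs, ← ht, smul_smul, smul_smul, mul_comm t s, sub_self]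
  rw [affineIndependent_iff] at hai
  have hw4 := hai Finset.univ ![-t + 2 * s, t, -s, -s] (by simp [Fin.sum_univ_four]; ring)
    (by
      rw [Fin.sum_univ_four]
      simp only [Matrix.cons_val_zero, Matrix.cons_val_one, Matrix.cons_val]
      rw [← hz]; module)
  have hs0 : s = 0 := by
    have := hw4 2 (Finset.mem_univ _)
    simpa using this
  have hb' : p b - p a = 0 := by rw [← hs, hs0, zero_smul]
  exact hab (inj hN (sub_eq_zero.1 hb')).symm

/-- the centre of the vertices -/
noncomputable def cen (p : Fin n → E3') : E3' := (n : ℝ)⁻¹ • ∑ i, p i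

theorem perm_of (hN : NeighPoly p T) (f : E3' ≃ᵃ[ℝ] E3') (hf : ∀ i, ∃ j, f (p i) = p j) :
    ∃ σ : Equiv.Perm (Fin n), ∀ i, f (p i) = p (σ i) := by
  choose s hs using hf
  have h1 : Function.Injective s := by
    intro i j hij
    have : f (p i) = f (p j) := by rw [hs, hs, hij]
    exact inj hN (f.injective this)
  exact ⟨Equiv.ofBijective s (Finite.injective_iff_bijective.1 h1), fun i => hs i⟩

theorem cen_fix (hn : 0 < n) (f : E3' ≃ᵃ[ℝ] E3') (σ : Equiv.Perm (Fin n))
    (hf : ∀ i, f (p i) = p (σ i)) : f (cen p) = cen p := by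
  have hn' : (n : ℝ) ≠ 0 := by positivity
  have h0 : ∑ i, (p i - cen p) = 0 := by
    rw [Finset.sum_sub_distrib, Finset.sum_const, Finset.card_univ, Fintype.card_fin,
      ← Nat.cast_smul_eq_nsmul ℝ, cen, smul_smul, mul_inv_cancel₀ hn', one_smul, sub_self]
  have h1 : ∑ i, (f (p i) - f (cen p)) = 0 := by
    have : ∀ i, f (p i) - f (cen p) = f.linear (p i - cen p) := fun i =>
      (f.toAffineMap.linearMap_vsub (p i) (cen p)).symm
    simp only [this]
    rw [← map_sum, h0, map_zero]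
  have h2 : ∑ i, f (p i) = ∑ i, p i := by
    simp only [hf]
    exact Equiv.sum_comp σ p
  rw [Finset.sum_sub_distrib, Finset.sum_const, Finset.card_univ, Fintype.card_fin, h2,
    ← Nat.cast_smul_eq_nsmul ℝ] at h1
  have h3 : (n : ℝ) • f (cen p) = ∑ i, p i := (sub_eq_zero.1 h1).symm
  calc f (cen p) = (n : ℝ)⁻¹ • ((n : ℝ) • f (cen p)) := by
        rw [smul_smul, inv_mul_cancel₀ hn', one_smul]
    _ = (n : ℝ)⁻¹ • ∑ i, p i := by rw [h3]
    _ = cen p := rfl

theorem act_of (hn : 0 < n) (f : E3' ≃ᵃ[ℝ] E3') (σ : Equiv.Perm (Fin n))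
    (hf : ∀ i, f (p i) = p (σ i)) : Act p (cen p) (f.linear : E3' →ₗ[ℝ] E3') σ := by
  refine ⟨fun i => ?_⟩
  have h1 := f.toAffineMap.linearMap_vsub (p i) (cen p)
  have h2 : (f.linear : E3' →ₗ[ℝ] E3') (p i - cen p) = f (p i) - f (cen p) := h1
  rw [h2, cen_fix hn f σ hf, hf]

theorem eq_of_perm (hN : NeighPoly p T) (hn : 6 < n) (f f' : E3' ≃ᵃ[ℝ] E3') (σ : Equiv.Perm (Fin n))
    (hf : ∀ i, f (p i) = p (σ i)) (hf' : ∀ i, f' (p i) = p (σ i)) : f = f' := by
  have h1 := act_of (by omega) f σ hf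
  have h2 := act_of (by omega) f' σ hf'
  have h3 : (f.linear : E3' →ₗ[ℝ] E3') = f'.linear :=
    ext_lin hN (by omega) (cen p) _ _ fun i => by rw [h1.eq, h2.eq]
  ext1 x
  have h4 : f x - f (cen p) = (f.linear : E3' →ₗ[ℝ] E3') (x - cen p) :=
    (f.toAffineMap.linearMap_vsub x (cen p)).symm
  have h5 : f' x - f' (cen p) = (f'.linear : E3' →ₗ[ℝ] E3') (x - cen p) :=
    (f'.toAffineMap.linearMap_vsub x (cen p)).symm
  rw [cen_fix (by omega) f σ hf] at h4
  rw [cen_fix (by omega) f' σ hf', ← h3, ← h4] at h5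
  exact (sub_left_injective h5).symm

end Pool.Agent.Lib.MP_4f1247_co.Sym
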