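import Pool.Agent.Lib.MP_4f1247_co.Sym.Inv

/-!
# Symmetries of a neighborly polyhedron: classification and the order of the group
-/

namespace Pool.Agent.Lib.MP_4f1247_co.Sym

open Finset
open scoped Kronecker

variable {n : ℕ} {p : Fin n → E3'} {T : Finset (Finset (Fin n))}

theorem rel_pos (hN : NeighPoly p T) (hn : 6 < n) {c : E3'} {g : E3' →ₗ[ℝ] E3'}
    {σ : Equiv.Perm (Fin n)} (h : Act p c g σ) (hd : (mt g).det = 1) (i : Fin n) :
    p (σ (σ (σ i))) - c = (mt g).trace • (p (σ (σ i)) - c) - (mt g).trace • (p (σ i) - c)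
      + (p i - c) := by
  obtain ⟨h1, h2⟩ := fin_order hN (by omega) h
  have h3 := cube_pos (mt g) _ h1 h2 hd
  have h4 : g ^ 3 = (mt g).trace • g ^ 2 - (mt g).trace • g + 1 := by
    apply mt_inj
    rw [mt_add, mt_sub, mt_smul, mt_smul, mt_pow, mt_pow, mt_one]
    exact h3
  have h5 := congrArg (fun L : E3' →ₗ[ℝ] E3' => L (p i - c)) h4
  simp only [pow_succ, pow_zero, one_mul, LinearMap.add_apply, LinearMap.sub_apply,
    LinearMap.smul_apply, Module.End.mul_apply, Module.End.one_apply, h.eq] at h5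
  exact h5

/-- the types of symmetries -/
theorem classify (hN : NeighPoly p T) (hn : 6 < n) {c : E3'} {g : E3' →ₗ[ℝ] E3'}
    {σ : Equiv.Perm (Fin n)} (h : Act p c g σ) : σ = 1 ∨
    (σ ^ 2 = 1 ∧ (mt g).det = 1 ∧ (mt g).trace = -1) ∨
    (σ ^ 3 = 1 ∧ (mt g).det = 1 ∧ (mt g).trace = 0) ∨
    (σ ^ 4 = 1 ∧ (mt g).det = -1 ∧ (mt g).trace = -1) := by
  obtain ⟨h1, h2⟩ := fin_order hN (by omega) h
  rcases det_pm (mt g) _ h1 h2 with hd | hd
  · rcases rot (cf hN c) σ _ (rel_pos hN hn h hd) with h3 | ⟨h3, h4⟩ | ⟨h3, h4⟩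
    · left; ext i; simp [h3 i]
    · right; right; left
      exact ⟨by ext i; simp [pow_succ, h4 i], hd, h3⟩
    · right; left
      exact ⟨by ext i; simp [pow_succ, h4 i], hd, h3⟩
  · right; right; right
    have ht2 := tr_sq_neg (mt g) _ h1 h2 hd
    have hd2 : (mt (g ^ 2)).det = 1 := by rw [mt_pow, Matrix.det_pow, hd]; norm_num
    have hA2 := h.pow 2
    have ht2' : (mt (g ^ 2)).trace = (mt g).trace ^ 2 + 2 * (mt g).trace := by rw [mt_pow, ht2]
    rcases rot (cf hN c) (σ ^ 2) _ (rel_pos hN hn hA2 hd2) with h3 | ⟨h3, h4⟩ | ⟨h3, h4⟩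
    · exfalso
      exact no_inv hN hn h (by ext i; simp [h3 i]) hd
    · exfalso
      have h6 : (σ ^ 3) ^ 2 = 1 := by
        ext i
        have := h4 i
        simp only [pow_succ, pow_zero, one_mul, Equiv.Perm.mul_apply] at this ⊢
        simp [this]
      have hd3 : (mt (g ^ 3)).det = -1 := by rw [mt_pow, Matrix.det_pow, hd]; norm_num
      exact no_inv hN hn (h.pow 3) h6 hd3
    · refine ⟨?_, hd, ?_⟩
      · ext i
        have := h4 i
        simp only [pow_succ, pow_zero, one_mul, Equiv.Perm.mul_apply] at this ⊢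
        simp [this]
      · rw [ht2'] at h3
        nlinarith [sq_nonneg ((mt g).trace + 1)]

/-- averages of representations -/
theorem avg {G : Type} [Group G] [Fintype G] {m : Type} [Fintype m] [DecidableEq m]
    (ρ : G →* Matrix m m ℝ) : ∃ k : ℕ, ∑ g, (ρ g).trace = (Fintype.card G : ℝ) * k := by
  have hG : (Fintype.card G : ℝ) ≠ 0 := by
    have := Fintype.card_pos (α := G)
    positivity
  set P : Matrix m m ℝ := (Fintype.card G : ℝ)⁻¹ • ∑ g, ρ g with hP
  have h1 : ∀ g, ρ g * P = P := by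
    intro g
    rw [hP, Matrix.mul_smul, Finset.mul_sum]
    congr 1
    have : ∀ x, ρ g * ρ x = ρ (g * x) := fun x => (map_mul ρ g x).symm
    simp only [this]
    exact Fintype.sum_bijective (fun x => g * x) (Group.mulLeft_bijective g) _ _ fun _ => rfl
  have h2 : P * P = P := by
    nth_rewrite 1 [hP]
    rw [Matrix.smul_mul, Finset.sum_mul]
    simp only [h1]
    rw [Finset.sum_const, Finset.card_univ, ← Nat.cast_smul_eq_nsmul ℝ, smul_smul,
      inv_mul_cancel₀ hG, one_smul]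
  have h3 : IsIdempotentElem (Matrix.toLin' P) := by
    change Matrix.toLin' P * Matrix.toLin' P = Matrix.toLin' P
    rw [Module.End.mul_eq_comp, ← Matrix.toLin'_mul, h2]
  have h4 := ((LinearMap.isProj_range_iff_isIdempotentElem _).2 h3).trace
  have h5 : LinearMap.trace ℝ (m → ℝ) (Matrix.toLin' P) = P.trace := by
    rw [LinearMap.trace_eq_matrix_trace ℝ (Pi.basisFun ℝ m), LinearMap.toMatrix_eq_toMatrix',
      LinearMap.toMatrix'_toLin']
  refine ⟨Module.finrank ℝ (LinearMap.range (Matrix.toLin' P)), ?_⟩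
  rw [← h4, h5, hP, Matrix.trace_smul, Matrix.trace_sum, smul_eq_mul, ← mul_assoc,
    mul_inv_cancel₀ hG, one_mul]

/-- A finite group of matrices with traces `0` and `-1` (apart from the identity) -/
theorem dvd12 {G : Type} [Group G] [Fintype G] [DecidableEq G] (ρ : G →* M3)
    (h : ∀ g, g ≠ 1 → (ρ g).trace = 0 ∨ (ρ g).trace = -1) : Fintype.card G ∣ 12 := by
  obtain ⟨k1, hk1⟩ := avg ρ
  let ρ2 : G →* Matrix (Fin 3 × Fin 3) (Fin 3 × Fin 3) ℝ :=
    { toFun := fun g => ρ g ⊗ₖ ρ g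
      map_one' := by rw [map_one, Matrix.one_kronecker_one]
      map_mul' := fun a b => by rw [map_mul, Matrix.mul_kronecker_mul] }
  obtain ⟨k2, hk2⟩ := avg ρ2
  have h1 : ∀ g, (ρ2 g).trace = (ρ g).trace ^ 2 := by
    intro g
    change (ρ g ⊗ₖ ρ g).trace = _
    rw [Matrix.trace_kronecker, pow_two]
  simp only [h1] at hk2
  have h2 : ∑ g, ((ρ g).trace + (ρ g).trace ^ 2) = 12 := by
    rw [Finset.sum_eq_single 1]
    · rw [map_one, Matrix.trace_one, Fintype.card_fin]; norm_num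
    · intro g _ hg
      rcases h g hg with h3 | h3 <;> rw [h3] <;> norm_num
    · intro h3; exact absurd (Finset.mem_univ _) h3
  rw [Finset.sum_add_distrib, hk1, hk2, ← mul_add] at h2
  exact ⟨k1 + k2, by exact_mod_cast h2.symm⟩

end Pool.Agent.Lib.MP_4f1247_co.Sym
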