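import Pool.Agent.Lib.MP_4f1247_co.Sym.Rot

/-!
# Symmetries of a neighborly polyhedron: no orientation reversing involutions
-/

namespace Pool.Agent.Lib.MP_4f1247_co.Sym

open Finset

variable {n : ℕ} {p : Fin n → E3'} {T : Finset (Finset (Fin n))}

/-- The linear map `g` permutes the vertices, seen from the point `c`, by `σ`. -/
structure Act (p : Fin n → E3') (c : E3') (g : E3' →ₗ[ℝ] E3') (σ : Equiv.Perm (Fin n)) : Prop where
  eq : ∀ i, g (p i - c) = p (σ i) - c

theorem cf (h : NeighPoly p T) (c : E3') : Cf (fun i => p i - c) where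
  inj := fun i j hij => inj h (by simpa using hij)
  cross := by
    intro a b d e hab hde had hae hbd hbe x h1 h2
    have hs : ∀ i j : Fin n, x ∈ segment ℝ (p i - c) (p j - c) → x + c ∈ segment ℝ (p i) (p j) := by
      rintro i j ⟨s, t, hs, ht, hst, rfl⟩
      refine ⟨s, t, hs, ht, hst, ?_⟩
      have : c = (s + t) • c := by rw [hst, one_smul]
      nth_rewrite 3 [this]
      module
    exact cross h hab hde had hae hbd hbe (hs _ _ h1) (hs _ _ h2)

/-- the vectors `p i - c` determine a linear map -/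
theorem ext_lin (h : NeighPoly p T) (hn : 1 < n) (c : E3') (g g' : E3' →ₗ[ℝ] E3')
    (he : ∀ i, g (p i - c) = g' (p i - c)) : g = g' := by
  obtain ⟨k, l, -, -, -, -, -, -, -, -, hai⟩ :=
    quad h (i := (⟨0, by omega⟩ : Fin n)) (j := ⟨1, hn⟩) (by simp)
  set q : Fin 4 → E3' := ![p ⟨0, by omega⟩, p ⟨1, hn⟩, p k, p l] with hq
  have hspan : vectorSpan ℝ (Set.range q) = ⊤ := by
    apply hai.vectorSpan_eq_top_of_card_eq_finrank_add_one
    simp
  have hd : ∀ r s, g (q r - q s) = g' (q r - q s) := by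
    have h1 : ∀ r, ∃ i, q r = p i := by
      intro r
      fin_cases r
      · exact ⟨_, rfl⟩
      · exact ⟨_, rfl⟩
      · exact ⟨_, rfl⟩
      · exact ⟨_, rfl⟩
    intro r s
    obtain ⟨i, hi⟩ := h1 r
    obtain ⟨j, hj⟩ := h1 s
    have h2 : q r - q s = (p i - c) - (p j - c) := by rw [hi, hj]; abel
    rw [h2, map_sub g, map_sub g', he, he]
  refine LinearMap.ext_on (s := Set.range q -ᵥ Set.range q) hspan ?_
  rintro x hx
  obtain ⟨a, ha, b, hb, rfl⟩ := Set.mem_vsub.1 hx
  obtain ⟨r, rfl⟩ := ha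
  obtain ⟨s, rfl⟩ := hb
  exact hd r s

theorem Act.one (c : E3') : Act p c 1 1 := ⟨fun _ => rfl⟩

theorem Act.mul {c : E3'} {g g' : E3' →ₗ[ℝ] E3'} {σ σ' : Equiv.Perm (Fin n)} (h : Act p c g σ)
    (h' : Act p c g' σ') : Act p c (g * g') (σ * σ') :=
  ⟨fun i => by rw [Module.End.mul_apply, h'.eq, h.eq]; rfl⟩

theorem Act.pow {c : E3'} {g : E3' →ₗ[ℝ] E3'} {σ : Equiv.Perm (Fin n)} (h : Act p c g σ) (k : ℕ) :
    Act p c (g ^ k) (σ ^ k) := by
  induction k with
  | zero => simpa using Act.one c
  | succ k ih => rw [pow_succ, pow_succ]; exact ih.mul h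

theorem Act.eq_one (hN : NeighPoly p T) (hn : 1 < n) {c : E3'} {g : E3' →ₗ[ℝ] E3'}
    (h : Act p c g 1) : g = 1 :=
  ext_lin hN hn c g 1 fun i => by rw [h.eq]; rfl

theorem Act.perm_eq (hN : NeighPoly p T) {c : E3'} {g : E3' →ₗ[ℝ] E3'} {σ σ' : Equiv.Perm (Fin n)}
    (h : Act p c g σ) (h' : Act p c g σ') : σ = σ' := by
  ext i
  have : p (σ i) - c = p (σ' i) - c := by rw [← h.eq, ← h'.eq]
  exact congrArg Fin.val (inj hN (by simpa using this))

/-- the matrix -/
noncomputable def mt (g : E3' →ₗ[ℝ] E3') : M3 :=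
  LinearMap.toMatrix (EuclideanSpace.basisFun (Fin 3) ℝ).toBasis
    (EuclideanSpace.basisFun (Fin 3) ℝ).toBasis g

theorem mt_mul (g g' : E3' →ₗ[ℝ] E3') : mt (g * g') = mt g * mt g' :=
  LinearMap.toMatrix_mul _ g g'

theorem mt_one : mt 1 = 1 := LinearMap.toMatrix_one _

theorem mt_pow (g : E3' →ₗ[ℝ] E3') (k : ℕ) : mt (g ^ k) = mt g ^ k := by
  induction k with
  | zero => simpa using mt_one
  | succ k ih => rw [pow_succ, pow_succ, mt_mul, ih]

theorem mt_inj {g g' : E3' →ₗ[ℝ] E3'} (h : mt g = mt g') : g = g' :=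
  (LinearMap.toMatrix _ _).injective h

theorem mt_add (g g' : E3' →ₗ[ℝ] E3') : mt (g + g') = mt g + mt g' := map_add _ _ _

theorem mt_sub (g g' : E3' →ₗ[ℝ] E3') : mt (g - g') = mt g - mt g' := map_sub _ _ _

theorem mt_smul (a : ℝ) (g : E3' →ₗ[ℝ] E3') : mt (a • g) = a • mt g := map_smul _ _ _

theorem mt_trace (g : E3' →ₗ[ℝ] E3') : (mt g).trace = LinearMap.trace ℝ E3' g :=
  (LinearMap.trace_eq_matrix_trace ℝ _ g).symm

theorem mt_det (g : E3' →ₗ[ℝ] E3') : (mt g).det = LinearMap.det g :=
  LinearMap.det_toMatrix _ g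

theorem fin_order (hN : NeighPoly p T) (hn : 1 < n) {c : E3'} {g : E3' →ₗ[ℝ] E3'}
    {σ : Equiv.Perm (Fin n)} (h : Act p c g σ) :
    0 < orderOf σ ∧ mt g ^ orderOf σ = 1 := by
  refine ⟨orderOf_pos σ, ?_⟩
  have h1 := h.pow (orderOf σ)
  rw [pow_orderOf_eq_one] at h1
  rw [← mt_pow, h1.eq_one hN hn, mt_one]

/-- no involution reverses the orientation -/
theorem no_inv (hN : NeighPoly p T) (hn : 6 < n) {c : E3'} {J : E3' →ₗ[ℝ] E3'}
    {τ : Equiv.Perm (Fin n)} (h : Act p c J τ) (hτ : τ ^ 2 = 1) (hd : (mt J).det = -1) : False := by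
  have hJ2 : J ^ 2 = 1 := by
    have := h.pow 2
    rw [hτ] at this
    exact this.eq_one hN (by omega)
  have hM2 : mt J ^ 2 = 1 := by rw [← mt_pow, hJ2, mt_one]
  have hch := cube_neg (mt J) 2 (by norm_num) hM2 hd
  have hττ : ∀ i, τ (τ i) = i := fun i => by
    have := congrArg (fun s : Equiv.Perm (Fin n) => s i) hτ
    simpa [pow_two] using this
  -- (1 - t) (J + 1) = 0
  have h1 : (1 - (mt J).trace) • (mt J + 1) = 0 := by
    have h2 : mt J ^ 3 = mt J := by rw [pow_succ, hM2, one_mul]
    rw [h2, hM2] at hch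
    have h3 : mt J - ((mt J).trace • (1 : M3) + (mt J).trace • mt J - 1) = 0 := sub_eq_zero.2 hch
    rw [← h3]; module
  rcases smul_eq_zero.1 h1 with h2 | h2
  · -- a reflection
    have ht : (mt J).trace = 1 := by linarith
    set P : E3' →ₗ[ℝ] E3' := (1 / 2 : ℝ) • (1 - J) with hP
    have hPi : IsIdempotentElem P := by
      change P * P = P
      rw [hP]
      have : (1 - J) * (1 - J) = (2 : ℝ) • (1 - J) := by
        have h3 : J * J = 1 := by rw [← pow_two]; exact hJ2
        rw [mul_sub, sub_mul, sub_mul, h3]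
        simp only [one_mul, mul_one]
        module
      rw [smul_mul_smul_comm, this, smul_smul]
      norm_num
    have hPt : LinearMap.trace ℝ E3' P = 1 := by
      rw [hP, map_smul, map_sub, ← mt_trace J, ht, LinearMap.trace_one]
      simp
      norm_num
    have hrk : Module.finrank ℝ (LinearMap.range P) = 1 := by
      have := ((LinearMap.isProj_range_iff_isIdempotentElem P).2 hPi).trace
      rw [hPt] at this
      exact_mod_cast this.symm
    obtain ⟨w, -, hw⟩ := finrank_eq_one_iff'.1 hrk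
    have hα : ∀ i, ∃ a : ℝ, (p i - c) - (p (τ i) - c) = a • (w : E3') := by
      intro i
      obtain ⟨a, ha⟩ := hw ⟨P (p i - c), LinearMap.mem_range_self _ _⟩
      refine ⟨2 * a, ?_⟩
      have h3 : a • (w : E3') = P (p i - c) := congrArg Subtype.val ha
      rw [← smul_smul, h3, hP]
      simp only [LinearMap.smul_apply, LinearMap.sub_apply, Module.End.one_apply, h.eq, smul_smul]
      norm_num
    choose α hα using hα
    have hm := mirror (cf hN c) τ hττ (w : E3') α hα
    -- not all are fixed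
    obtain ⟨a, ha⟩ : ∃ a, τ a ≠ a := by
      by_contra hcon
      push Not at hcon
      have : J = 1 := ext_lin hN (by omega) c J 1 fun i => by rw [h.eq, hcon]; rfl
      rw [this, mt_one, Matrix.det_one] at hd
      norm_num at hd
    have hfix : ∀ i, i ≠ a → i ≠ τ a → τ i = i := by
      intro i h3 h4
      by_contra h5
      rcases hm a i ha h5 with h6 | h6
      · exact h3 h6
      · exact h4 h6
    -- four fixed points are coplanar
    have h4 : ∀ i j k l : Fin n, τ i = i → τ j = j → τ k = k → τ l = l →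
        ¬ AffineIndependent ℝ ![p i, p j, p k, p l] := by
      intro i j k l hi hj hk hl hai
      set q : Fin 4 → E3' := ![p i, p j, p k, p l] with hq
      have hspan : vectorSpan ℝ (Set.range q) = ⊤ := by
        apply hai.vectorSpan_eq_top_of_card_eq_finrank_add_one
        simp
      have hf : ∀ r, ∃ i, q r = p i ∧ τ i = i := by
        intro r
        fin_cases r
        · exact ⟨i, rfl, hi⟩
        · exact ⟨j, rfl, hj⟩
        · exact ⟨k, rfl, hk⟩
        · exact ⟨l, rfl, hl⟩
      have : J = 1 := by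
        refine LinearMap.ext_on (s := Set.range q -ᵥ Set.range q) hspan ?_
        rintro x hx
        obtain ⟨x1, hx1, x2, hx2, rfl⟩ := Set.mem_vsub.1 hx
        obtain ⟨r, rfl⟩ := hx1
        obtain ⟨s, rfl⟩ := hx2
        obtain ⟨r', hr', hr''⟩ := hf r
        obtain ⟨s', hs', hs''⟩ := hf s
        have h5 : q r -ᵥ q s = (p r' - c) - (p s' - c) := by rw [hr', hs', vsub_eq_sub]; abel
        rw [h5, map_sub, h.eq, h.eq, hr'', hs'']; rfl
      rw [this, mt_one, Matrix.det_one] at hd
      norm_num at hd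
    -- the face a, τ a, x
    set b := τ a with hb
    obtain ⟨x, -, hxa, hxb, -, -, -, hx, -, -, -⟩ := quad hN (i := a) (j := b) (Ne.symm ha)
    -- the two faces at x a and at x b
    obtain ⟨k1, l1, -, -, -, -, -, -, -, hu1, -⟩ := quad hN (i := x) (j := a) hxa
    obtain ⟨k2, l2, -, -, -, -, -, -, -, hu2, -⟩ := quad hN (i := x) (j := b) hxb
    have hxab : ({x, a, b} : Finset (Fin n)) ∈ T := by
      have : ({x, a, b} : Finset (Fin n)) = {a, b, x} := by ext y; simp; tauto
      rw [this]; exact hx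
    have hxba : ({x, b, a} : Finset (Fin n)) ∈ T := by
      have : ({x, b, a} : Finset (Fin n)) = {a, b, x} := by ext y; simp; tauto
      rw [this]; exact hx
    have e1 : ∃ m1, ∀ m, ({x, a, m} : Finset (Fin n)) ∈ T → m ≠ x → m ≠ a → m ≠ b → m = m1 := by
      rcases hu1 b hxab with h5 | h5 | h5 | h5
      · refine ⟨l1, fun m hm h6 h7 h8 => ?_⟩
        rcases hu1 m hm with h9 | h9 | h9 | h9
        · exact absurd (h9.trans h5.symm) h8
        · exact h9
        · exact absurd h9 h6
        · exact absurd h9 h7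
      · refine ⟨k1, fun m hm h6 h7 h8 => ?_⟩
        rcases hu1 m hm with h9 | h9 | h9 | h9
        · exact h9
        · exact absurd (h9.trans h5.symm) h8
        · exact absurd h9 h6
        · exact absurd h9 h7
      · exact absurd h5.symm hxb
      · exact absurd h5 ha
    have e2 : ∃ m2, ∀ m, ({x, b, m} : Finset (Fin n)) ∈ T → m ≠ x → m ≠ b → m ≠ a → m = m2 := by
      rcases hu2 a hxba with h5 | h5 | h5 | h5
      · refine ⟨l2, fun m hm h6 h7 h8 => ?_⟩
        rcases hu2 m hm with h9 | h9 | h9 | h9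
        · exact absurd (h9.trans h5.symm) h8
        · exact h9
        · exact absurd h9 h6
        · exact absurd h9 h7
      · refine ⟨k2, fun m hm h6 h7 h8 => ?_⟩
        rcases hu2 m hm with h9 | h9 | h9 | h9
        · exact h9
        · exact absurd (h9.trans h5.symm) h8
        · exact absurd h9 h6
        · exact absurd h9 h7
      · exact absurd h5.symm hxa
      · exact absurd h5.symm ha
    obtain ⟨m1, hm1⟩ := e1
    obtain ⟨m2, hm2⟩ := e2
    have hall : ∀ j : Fin n, j ∈ ({a, b, x, m1, m2} : Finset (Fin n)) := by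
      intro j
      simp only [Finset.mem_insert, Finset.mem_singleton]
      by_contra hcon
      push Not at hcon
      obtain ⟨hja, hjb, hjx, hj1, hj2⟩ := hcon
      obtain ⟨k, l, hkx, hkj, hlx, hlj, -, hk, hl, -, hai⟩ := quad hN (i := x) (j := j) (Ne.symm hjx)
      have hcase : ∀ m, ({x, j, m} : Finset (Fin n)) ∈ T → m = a ∨ m = b → False := by
        rintro m hm (rfl | rfl)
        · refine hj1 (hm1 j ?_ hjx hja hjb)
          have : ({x, m, j} : Finset (Fin n)) = {x, j, m} := by ext y; simp; tauto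
          rw [this]; exact hm
        · refine hj2 (hm2 j ?_ hjx hjb hja)
          have : ({x, b, j} : Finset (Fin n)) = {x, j, b} := by ext y; simp; tauto
          rw [this]; exact hm
      have hk2 : τ k = k := hfix k (fun e => hcase k hk (Or.inl e)) (fun e => hcase k hk (Or.inr e))
      have hl2 : τ l = l := hfix l (fun e => hcase l hl (Or.inl e)) (fun e => hcase l hl (Or.inr e))
      exact h4 x j k l (hfix x hxa hxb) (hfix j hja hjb) hk2 hl2 hai
    have hcard : n ≤ 5 := by
      have h5 : (Finset.univ : Finset (Fin n)) ⊆ {a, b, x, m1, m2} := fun j _ => hall j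
      have h6 := Finset.card_le_card h5
      rw [Finset.card_univ, Fintype.card_fin] at h6
      exact h6.trans Finset.card_le_five
    omega
  · -- the central symmetry
    have h3 : J = -1 := by
      apply mt_inj
      have h4 : mt (-1 : E3' →ₗ[ℝ] E3') = -1 := by
        have : (-1 : E3' →ₗ[ℝ] E3') = (-1 : ℝ) • 1 := by simp
        rw [this, mt_smul, mt_one]; simp
      rw [h4]
      exact eq_neg_of_add_eq_zero_left h2
    refine central (cf hN c) (by omega) τ fun i => ?_
    rw [← h.eq, h3]; rfl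

end Pool.Agent.Lib.MP_4f1247_co.Sym
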