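import Pool.Agent.Lib.MP_4f1247_co.Sym.Fix

/-!
# Symmetries of a neighborly polyhedron: the theorem
-/

namespace Pool.Agent.Lib.MP_4f1247_co.Sym

open Finset

variable {n : ℕ} {p : Fin n → E3'} {T : Finset (Finset (Fin n))}

/-- the affine bijections of the space -/
abbrev Aff : Type := E3' ≃ᵃ[ℝ] E3'

/-- the determinant of the linear part of an affine bijection of the space -/
noncomputable def linDet (f : Aff) : ℝ := LinearMap.det (f.linear : E3' →ₗ[ℝ] E3')

/-- `f` is an involution of determinant one (affinely equivalent to a half turn). -/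
def HalfTurn (f : Aff) : Prop := f ^ 2 = 1 ∧ linDet f = 1

/-- `f` has order dividing three and determinant one (a rotation of order three). -/
def ThirdTurn (f : Aff) : Prop := f ^ 3 = 1 ∧ linDet f = 1

/-- `f` has order four and reverses the orientation. -/
def QuarterTurn (f : Aff) : Prop := f ^ 4 = 1 ∧ f ^ 2 ≠ 1 ∧ linDet f = -1

/-- `f` maps vertices to vertices. -/
def VertexMap (p : Fin n → E3') (f : Aff) : Prop := ∀ i, ∃ j, f (p i) = p j

/-- `f` maps the vertices of every face onto the vertices of a face. -/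
def FaceMap (p : Fin n → E3') (T : Finset (Finset (Fin n))) (f : Aff) : Prop :=
  ∀ t ∈ T, ∃ s ∈ T, f '' (p '' (t : Set (Fin n))) = p '' (s : Set (Fin n))

/-- `f` fixes at most one vertex. -/
def FixOne (p : Fin n → E3') (f : Aff) : Prop := ∀ i j, f (p i) = p i → f (p j) = p j → i = j

theorem main (hN : NeighPoly p T) (hn : 6 < n) (G : Subgroup Aff)
    (hG : ∀ f ∈ G, VertexMap p f) :
    Finite G ∧ Nat.card G ∣ 12 ∧ ∀ f ∈ G, f ≠ 1 →
      (HalfTurn f ∨ ThirdTurn f ∨ QuarterTurn f) ∧ (FaceMap p T f → FixOne p f) := by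
  classical
  have hn0 : 0 < n := by omega
  have hs : ∀ f : G, ∃ σ : Equiv.Perm (Fin n), ∀ i, f.1 (p i) = p (σ i) :=
    fun f => perm_of hN f.1 (hG f.1 f.2)
  choose s hs using hs
  have hact : ∀ f : G, Act p (cen p) (f.1.linear : E3' →ₗ[ℝ] E3') (s f) :=
    fun f => act_of hn0 f.1 (s f) (hs f)
  have hsinj : Function.Injective s := by
    intro f f' hff
    apply Subtype.ext
    exact eq_of_perm hN hn f.1 f'.1 (s f) (hs f) (by rw [hff]; exact hs f')
  have hfin : Finite G := Finite.of_injective s hsinj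
  have hone : ∀ f : G, s f = 1 → f = 1 := by
    intro f hf
    apply Subtype.ext
    refine eq_of_perm hN hn f.1 1 1 ?_ fun i => rfl
    intro i; rw [hs f, hf]
  have hspow : ∀ (f : G) (k : ℕ), (s f) ^ k = 1 → f.1 ^ k = 1 := by
    intro f k hk
    have h1 : ∀ (m : ℕ) (i : Fin n), (f.1 ^ m) (p i) = p (((s f) ^ m) i) := by
      intro m
      induction m with
      | zero => intro i; rfl
      | succ m ih =>
        intro i
        rw [pow_succ, pow_succ, AffineEquiv.coe_mul, Function.comp_apply, hs f, ih]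
        rfl
    refine eq_of_perm hN hn _ 1 1 ?_ fun i => rfl
    intro i; rw [h1, hk]
  refine ⟨hfin, ?_, ?_⟩
  · have := Fintype.ofFinite G
    let ρ : G →* M3 :=
      { toFun := fun f => mt (f.1.linear : E3' →ₗ[ℝ] E3')
        map_one' := mt_one
        map_mul' := fun a b => mt_mul _ _ }
    rw [Nat.card_eq_fintype_card]
    refine dvd12 ρ fun f hf => ?_
    rcases classify hN hn (hact f) with h1 | ⟨-, -, h1⟩ | ⟨-, -, h1⟩ | ⟨-, -, h1⟩
    · exact absurd (hone f h1) hf
    · exact Or.inr h1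
    · exact Or.inl h1
    · exact Or.inr h1
  · intro f hf hf1
    have hne : s ⟨f, hf⟩ ≠ 1 := fun h => hf1 (congrArg Subtype.val (hone ⟨f, hf⟩ h))
    constructor
    · rcases classify hN hn (hact ⟨f, hf⟩) with h1 | ⟨h1, h2, -⟩ | ⟨h1, h2, -⟩ | ⟨h1, h2, -⟩
      · exact absurd h1 hne
      · exact Or.inl ⟨hspow ⟨f, hf⟩ 2 h1, by rw [linDet, ← mt_det]; exact h2⟩
      · exact Or.inr (Or.inl ⟨hspow ⟨f, hf⟩ 3 h1, by rw [linDet, ← mt_det]; exact h2⟩)
      · refine Or.inr (Or.inr ⟨hspow ⟨f, hf⟩ 4 h1, fun h3 => ?_, by rw [linDet, ← mt_det]; exact h2⟩)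
        have h4 : (s ⟨f, hf⟩) ^ 2 = 1 := by
          have h5 : ∀ i : Fin n, (f ^ 2) (p i) = p (((s ⟨f, hf⟩) ^ 2) i) := by
            intro i
            rw [pow_two, pow_two, AffineEquiv.coe_mul, Function.comp_apply]
            have := hs ⟨f, hf⟩ i
            simp only at this
            rw [this]
            exact hs ⟨f, hf⟩ _
          ext i
          have h6 := h5 i
          rw [h3] at h6
          exact congrArg Fin.val (inj hN h6).symm
        exact no_inv hN hn (hact ⟨f, hf⟩) h4 h2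
    · intro hT i j hi hj
      have hi' : s ⟨f, hf⟩ i = i := inj hN ((hs ⟨f, hf⟩ i).symm.trans hi)
      have hj' : s ⟨f, hf⟩ j = j := inj hN ((hs ⟨f, hf⟩ j).symm.trans hj)
      refine fix_one hN hn (hact ⟨f, hf⟩) hne ?_ hi' hj'
      intro t ht
      obtain ⟨u, hu, hut⟩ := hT t ht
      have : t.image (s ⟨f, hf⟩) = u := by
        ext k
        have h1 : k ∈ u ↔ p k ∈ p '' (u : Set (Fin n)) := by
          rw [(inj hN).mem_set_image, Finset.mem_coe]
        rw [h1, ← hut, Finset.mem_image]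
        constructor
        · rintro ⟨m, hm, rfl⟩
          exact ⟨p m, ⟨m, hm, rfl⟩, hs ⟨f, hf⟩ m⟩
        · rintro ⟨_, ⟨m, hm, rfl⟩, hk⟩
          refine ⟨m, hm, inj hN ?_⟩
          rw [← hs ⟨f, hf⟩ m]; exact hk
      rw [this]; exact hu

end Pool.Agent.Lib.MP_4f1247_co.Sym
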