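import Mathlib

/-!
# Real 3 x 3 matrices of finite order: trace of the inverse, Cayley-Hamilton
-/

namespace Pool.Agent.Lib.MP_4f1247_co.Sym

open Matrix

abbrev M3 := Matrix (Fin 3) (Fin 3) ℝ

theorem ch3 (M : M3) :
    M ^ 3 = M.trace • M ^ 2 - (M.adjugate).trace • M + M.det • (1 : M3) := by
  ext i j
  fin_cases i <;> fin_cases j <;>
    simp [pow_succ, Matrix.mul_apply, Fin.sum_univ_three, Matrix.det_fin_three,
      Matrix.adjugate_fin_three, Matrix.trace_fin_three] <;> ring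

theorem tr_sq (M : M3) : (M ^ 2).trace = M.trace ^ 2 - 2 * (M.adjugate).trace := by
  simp [pow_succ, Matrix.mul_apply, Fin.sum_univ_three,
      Matrix.adjugate_fin_three, Matrix.trace_fin_three]
  ring

/-- the invariant form -/
theorem tr_inv (M : M3) (N : ℕ) (hN : 0 < N) (h : M ^ N = 1) : (M⁻¹).trace = M.trace := by
  have hdet : IsUnit M.det := by
    have h1 : M.det ^ N = 1 := by rw [← Matrix.det_pow, h, Matrix.det_one]
    exact IsUnit.of_pow_eq_one h1 hN.ne'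
  set B : M3 := ∑ k ∈ Finset.range N, (M ^ k)ᵀ * M ^ k with hB
  have hBM : Mᵀ * B * M = B := by
    have h1 : Mᵀ * B * M = ∑ k ∈ Finset.range N, (M ^ (k + 1))ᵀ * M ^ (k + 1) := by
      rw [hB, Finset.mul_sum, Finset.sum_mul]
      refine Finset.sum_congr rfl fun k _ => ?_
      rw [pow_succ, Matrix.transpose_mul]
      simp only [Matrix.mul_assoc]
    rw [h1, hB]
    have h2 := Finset.sum_range_succ (fun k => (M ^ k)ᵀ * M ^ k) N
    have h3 := Finset.sum_range_succ' (fun k => (M ^ k)ᵀ * M ^ k) N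
    rw [h3] at h2
    simp only [h, pow_zero] at h2
    exact add_right_cancel h2
  have hpos : B.PosDef := by
    have h1 : B = (1 : M3) + ∑ k ∈ Finset.range (N - 1), (M ^ (k + 1))ᵀ * M ^ (k + 1) := by
      obtain ⟨m, rfl⟩ : ∃ m, N = m + 1 := ⟨N - 1, by omega⟩
      rw [hB, Finset.sum_range_succ']
      simp [add_comm]
    rw [h1]
    refine Matrix.PosDef.add_posSemidef Matrix.PosDef.one ?_
    refine Matrix.posSemidef_sum _ fun k _ => ?_
    have := Matrix.posSemidef_conjTranspose_mul_self (M ^ (k + 1))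
    simpa [Matrix.conjTranspose_eq_transpose_of_trivial] using this
  have hBu : IsUnit B.det := by
    exact (hpos.det_pos.ne').isUnit
  -- B M = (Mᵀ)⁻¹ B
  have hMt : IsUnit (Mᵀ).det := by rwa [Matrix.det_transpose]
  have h4 : B * M = (Mᵀ)⁻¹ * B := by
    calc B * M = ((Mᵀ)⁻¹ * Mᵀ) * (B * M) := by rw [Matrix.nonsing_inv_mul _ hMt, Matrix.one_mul]
      _ = (Mᵀ)⁻¹ * (Mᵀ * B * M) := by simp only [Matrix.mul_assoc]
      _ = (Mᵀ)⁻¹ * B := by rw [hBM]
  have h5 : M = B⁻¹ * ((Mᵀ)⁻¹ * B) := by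
    rw [← h4, ← Matrix.mul_assoc, Matrix.nonsing_inv_mul _ hBu, Matrix.one_mul]
  calc (M⁻¹).trace = ((M⁻¹)ᵀ).trace := (Matrix.trace_transpose _).symm
    _ = ((Mᵀ)⁻¹).trace := by rw [Matrix.transpose_nonsing_inv]
    _ = ((Mᵀ)⁻¹ * (B * B⁻¹)).trace := by rw [Matrix.mul_nonsing_inv _ hBu, Matrix.mul_one]
    _ = (B⁻¹ * ((Mᵀ)⁻¹ * B)).trace := by
        rw [Matrix.trace_mul_comm B⁻¹, Matrix.mul_assoc]
    _ = M.trace := by rw [← h5]

theorem det_pm (M : M3) (N : ℕ) (hN : 0 < N) (h : M ^ N = 1) : M.det = 1 ∨ M.det = -1 := by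
  have h1 : M.det ^ N = 1 := by rw [← Matrix.det_pow, h, Matrix.det_one]
  have h2 : |M.det| = 1 := by
    have := congrArg abs h1
    rw [abs_pow, abs_one] at this
    exact (pow_eq_one_iff_of_nonneg (abs_nonneg _) hN.ne').1 this
  rcases abs_choice M.det with h3 | h3
  · left; rw [← h3, h2]
  · right; rw [h3] at h2; linarith

theorem tr_adj (M : M3) (N : ℕ) (hN : 0 < N) (h : M ^ N = 1) :
    (M.adjugate).trace = M.det * M.trace := by
  have hdet : IsUnit M.det := by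
    have h1 : M.det ^ N = 1 := by rw [← Matrix.det_pow, h, Matrix.det_one]
    exact IsUnit.of_pow_eq_one h1 hN.ne'
  have h1 : M.adjugate = M.det • M⁻¹ := by
    rw [Matrix.inv_def, smul_smul, Ring.mul_inverse_cancel _ hdet, one_smul]
  rw [h1, Matrix.trace_smul, tr_inv M N hN h, smul_eq_mul]

theorem cube_pos (M : M3) (N : ℕ) (hN : 0 < N) (h : M ^ N = 1) (hd : M.det = 1) :
    M ^ 3 = M.trace • M ^ 2 - M.trace • M + 1 := by
  have := ch3 M
  rw [tr_adj M N hN h, hd, one_mul, one_smul] at this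
  exact this

theorem cube_neg (M : M3) (N : ℕ) (hN : 0 < N) (h : M ^ N = 1) (hd : M.det = -1) :
    M ^ 3 = M.trace • M ^ 2 + M.trace • M - 1 := by
  have := ch3 M
  rw [tr_adj M N hN h, hd] at this
  rw [this]
  simp only [neg_mul, one_mul, neg_smul, one_smul]
  abel

theorem tr_sq_neg (M : M3) (N : ℕ) (hN : 0 < N) (h : M ^ N = 1) (hd : M.det = -1) :
    (M ^ 2).trace = M.trace ^ 2 + 2 * M.trace := by
  rw [tr_sq, tr_adj M N hN h, hd]; ring

end Pool.Agent.Lib.MP_4f1247_co.Sym
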