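import Pool.Agent.Lib.MP_4f1247_co.Sym.Mat
import Pool.Agent.Lib.MP_4f1247_co.Sym.Cross

/-!
# Linear maps which permute points without crossing segments
-/

namespace Pool.Agent.Lib.MP_4f1247_co.Sym

open Finset

/-- no two segments with four different ends meet -/
structure Cf {n : ℕ} (v : Fin n → E3') : Prop where
  inj : Function.Injective v
  cross : ∀ a b c d : Fin n, a ≠ b → c ≠ d → a ≠ c → a ≠ d → b ≠ c → b ≠ d →
    ∀ x, x ∈ segment ℝ (v a) (v b) → x ∈ segment ℝ (v c) (v d) → False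

variable {n : ℕ} {v : Fin n → E3'}

theorem mem_seg (a b : E3') (s t : ℝ) (hs : 0 ≤ s) (ht : 0 ≤ t) (hst : 0 < s + t) :
    (s + t)⁻¹ • (s • a + t • b) ∈ segment ℝ a b := by
  refine ⟨s / (s + t), t / (s + t), by positivity, by positivity, ?_, ?_⟩
  · field_simp
  · rw [smul_add, smul_smul, smul_smul]
    congr 2 <;> field_simp

/-- rotations -/
theorem rot (h : Cf v) (σ : Equiv.Perm (Fin n)) (t : ℝ)
    (rel : ∀ i, v (σ (σ (σ i))) = t • v (σ (σ i)) - t • v (σ i) + v i) :
    (∀ i, σ i = i) ∨ (t = 0 ∧ ∀ i, σ (σ (σ i)) = i) ∨ (t = -1 ∧ ∀ i, σ (σ i) = i) := by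
  by_cases h0 : t = 0
  · right; left
    refine ⟨h0, fun i => h.inj ?_⟩
    rw [rel i, h0]; simp
  by_cases hid : ∀ i, σ i = i
  · exact Or.inl hid
  right; right
  -- key
  have key : ∀ i, σ i ≠ i → σ (σ i) = i ∧ t = -1 := by
    intro i hi
    have hr := rel i
    have h21 : σ (σ i) ≠ σ i := fun h2 => hi (σ.injective h2)
    have h32 : σ (σ (σ i)) ≠ σ (σ i) := fun h2 => h21 (σ.injective h2)
    by_cases h2 : σ (σ i) = i
    · refine ⟨h2, ?_⟩
      rw [h2] at hr
      have h3 : (1 + t) • (v (σ i) - v i) = 0 := by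
        have : v (σ i) - (t • v i - t • v (σ i) + v i) = 0 := sub_eq_zero.2 hr
        rw [← this]; module
      rcases smul_eq_zero.1 h3 with h4 | h4
      · linarith
      · exact absurd (h.inj (sub_eq_zero.1 h4)) hi
    · exfalso
      have h3 : σ (σ (σ i)) ≠ i := by
        intro h3
        rw [h3] at hr
        have h4 : t • (v (σ (σ i)) - v (σ i)) = 0 := by
          have : (t • v (σ (σ i)) - t • v (σ i) + v i) - v i = 0 := sub_eq_zero.2 hr.symm
          rw [← this]; module
        rcases smul_eq_zero.1 h4 with h5 | h5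
        · exact h0 h5
        · exact h21 (h.inj (sub_eq_zero.1 h5))
      have h31 : σ (σ (σ i)) ≠ σ i := fun h4 => h2 (σ.injective h4)
      rcases lt_or_gt_of_ne h0 with ht | ht
      · -- v3 + s v2 = v0 + s v1
        have e : v (σ (σ (σ i))) + (-t) • v (σ (σ i)) = v i + (-t) • v (σ i) := by
          rw [hr]; module
        have m1 := mem_seg (v (σ (σ (σ i)))) (v (σ (σ i))) 1 (-t) (by norm_num) (by linarith)
          (by linarith)
        have m2 := mem_seg (v i) (v (σ i)) 1 (-t) (by norm_num) (by linarith) (by linarith)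
        rw [one_smul, e] at m1
        rw [one_smul] at m2
        exact h.cross _ _ _ _ h32 (Ne.symm hi) h3 h31 h2 h21 _ m1 m2
      · have e : v (σ (σ (σ i))) + t • v (σ i) = v i + t • v (σ (σ i)) := by
          rw [hr]; module
        have m1 := mem_seg (v (σ (σ (σ i)))) (v (σ i)) 1 t (by norm_num) ht.le (by linarith)
        have m2 := mem_seg (v i) (v (σ (σ i))) 1 t (by norm_num) ht.le (by linarith)
        rw [one_smul, e] at m1
        rw [one_smul] at m2
        exact h.cross _ _ _ _ h31 (Ne.symm h2) h3 h32 hi (Ne.symm h21) _ m1 m2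
  push Not at hid
  obtain ⟨i0, hi0⟩ := hid
  refine ⟨(key i0 hi0).2, fun i => ?_⟩
  by_cases hi : σ i = i
  · rw [hi, hi]
  · exact (key i hi).1

/-- central symmetry -/
theorem central (h : Cf v) (hn : 3 < n) (τ : Equiv.Perm (Fin n)) (rel : ∀ i, v (τ i) = - v i) :
    False := by
  have hττ : ∀ i, τ (τ i) = i := fun i => h.inj (by rw [rel, rel, neg_neg])
  have hfix : ∀ i, τ i = i → v i = 0 := by
    intro i hi
    have := rel i
    rw [hi] at this
    have h2 : (2 : ℝ) • v i = 0 := by rw [two_smul]; nth_rewrite 2 [this]; simp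
    simpa using h2
  have h0 : ∀ i, (0 : E3') ∈ segment ℝ (v i) (v (τ i)) := by
    intro i
    refine ⟨1 / 2, 1 / 2, by norm_num, by norm_num, by norm_num, ?_⟩
    rw [rel]; module
  -- a set of nonfixed points
  obtain ⟨i, hi⟩ : ∃ i, τ i ≠ i := by
    by_contra hcon
    push Not at hcon
    have h1 := hfix ⟨0, by omega⟩ (hcon _)
    have h2 := hfix ⟨1, by omega⟩ (hcon _)
    have := h.inj (h1.trans h2.symm)
    simp at this
  -- the complement of {i, τ i}
  have hc : 1 < ((Finset.univ \ {i, τ i} : Finset (Fin n))).card := by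
    rw [Finset.card_sdiff_of_subset (Finset.subset_univ _), Finset.card_pair (Ne.symm hi),
      Finset.card_univ, Fintype.card_fin]
    omega
  obtain ⟨j, hj, k, hk, hjk⟩ := Finset.one_lt_card.1 hc
  simp only [Finset.mem_sdiff, Finset.mem_univ, true_and, Finset.mem_insert,
    Finset.mem_singleton, not_or] at hj hk
  obtain ⟨l, hl, hli, hlt⟩ : ∃ l, τ l ≠ l ∧ l ≠ i ∧ l ≠ τ i := by
    by_cases hj' : τ j = j
    · by_cases hk' : τ k = k
      · exact absurd (h.inj ((hfix j hj').trans (hfix k hk').symm)) hjk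
      · exact ⟨k, hk', hk.1, hk.2⟩
    · exact ⟨j, hj', hj.1, hj.2⟩
  have a1 : i ≠ τ l := fun e => hlt (by rw [e, hττ])
  have a2 : τ i ≠ τ l := fun e => hli (τ.injective e).symm
  exact h.cross i (τ i) l (τ l) (Ne.symm hi) (Ne.symm hl) (Ne.symm hli) a1 (Ne.symm hlt) a2 0
    (h0 i) (h0 l)

/-- reflections: at most one pair of points is interchanged -/
theorem mirror (h : Cf v) (τ : Equiv.Perm (Fin n)) (hττ : ∀ i, τ (τ i) = i) (w : E3')
    (α : Fin n → ℝ) (rel : ∀ i, v i - v (τ i) = α i • w) (i j : Fin n) (hi : τ i ≠ i)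
    (hj : τ j ≠ j) : j = i ∨ j = τ i := by
  by_contra hcon
  push Not at hcon
  obtain ⟨h1, h2⟩ := hcon
  have hα : ∀ k, τ k ≠ k → α k ≠ 0 := by
    intro k hk hk0
    have := rel k
    rw [hk0, zero_smul] at this
    exact hk (h.inj (sub_eq_zero.1 this)).symm
  have a1 : i ≠ τ j := fun e => h2 (by rw [e, hττ])
  have a2 : τ i ≠ τ j := fun e => h1 (τ.injective e).symm
  have hαi := hα i hi
  have hαj := hα j hj
  have ei : v (τ i) = v i - α i • w := by rw [← rel i]; abel
  have ej : v (τ j) = v j - α j • w := by rw [← rel j]; abel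
  rcases lt_or_gt_of_ne (mul_ne_zero hαi hαj) with hneg | hpos
  · -- opposite signs: [v i, v j] and [v τi, v τj]
    have e : |α j| • v i + |α i| • v j = |α j| • v (τ i) + |α i| • v (τ j) := by
      rw [ei, ej]
      have : |α j| * α i + |α i| * α j = 0 := by
        rcases mul_neg_iff.1 hneg with ⟨h3, h4⟩ | ⟨h3, h4⟩
        · rw [abs_of_pos h3, abs_of_neg h4]; ring
        · rw [abs_of_neg h3, abs_of_pos h4]; ring
      have h5 : (|α j| * α i + |α i| * α j) • w = 0 := by rw [this, zero_smul]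
      have h6 : |α j| • v i + |α i| • v j - (|α j| • (v i - α i • w) + |α i| • (v j - α j • w))
          = (|α j| * α i + |α i| * α j) • w := by module
      exact sub_eq_zero.1 (h6.trans h5)
    have hp : 0 < |α j| + |α i| := by positivity
    have m1 := mem_seg (v i) (v j) _ _ (abs_nonneg (α j)) (abs_nonneg (α i)) hp
    have m2 := mem_seg (v (τ i)) (v (τ j)) _ _ (abs_nonneg (α j)) (abs_nonneg (α i)) hp
    rw [e] at m1
    exact h.cross i j (τ i) (τ j) (Ne.symm h1) a2 (Ne.symm hi) a1 h2 (Ne.symm hj) _ m1 m2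
  · have e : |α j| • v i + |α i| • v (τ j) = |α j| • v (τ i) + |α i| • v j := by
      rw [ei, ej]
      have : |α j| * α i - |α i| * α j = 0 := by
        rcases mul_pos_iff.1 hpos with ⟨h3, h4⟩ | ⟨h3, h4⟩
        · rw [abs_of_pos h3, abs_of_pos h4]; ring
        · rw [abs_of_neg h3, abs_of_neg h4]; ring
      have h5 : (|α j| * α i - |α i| * α j) • w = 0 := by rw [this, zero_smul]
      have h6 : |α j| • v i + |α i| • (v j - α j • w) - (|α j| • (v i - α i • w) + |α i| • v j)
          = (|α j| * α i - |α i| * α j) • w := by module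
      exact sub_eq_zero.1 (h6.trans h5)
    have hp : 0 < |α j| + |α i| := by positivity
    have m1 := mem_seg (v i) (v (τ j)) _ _ (abs_nonneg (α j)) (abs_nonneg (α i)) hp
    have m2 := mem_seg (v (τ i)) (v j) _ _ (abs_nonneg (α j)) (abs_nonneg (α i)) hp
    rw [e] at m1
    exact h.cross i (τ j) (τ i) j a1 (Ne.symm h2) (Ne.symm hi) (Ne.symm h1) (Ne.symm a2) hj _ m1 m2

end Pool.Agent.Lib.MP_4f1247_co.Sym
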